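import Mathlib
import Pool.Agent.K6.H79.MU.Main

/-!
# The conjectures of Tate and the semisimplicity for the product of any abelian variety and any
unrelated variety over a finite field

Let `k` be the field with `q` elements, `A` **any abelian variety** over `k` and `U` **any smooth
variety** over `k`, proper or not. We fix an isomorphism of the algebraic closure of `ℚ_ℓ` with `ℂ`, and
take complex coefficients. Let `V = H^1(A)` and let `P` be the characteristic polynomial of the
Frobenius endomorphism `F` on `V`. So `P` is a rational polynomial, its roots `α` satisfy
`α * conj α = q`, and `F` is diagonalizable (Weil). The cohomology of `A` is the exterior algebra of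
`V`. Let `W` be the cohomology of `U`, `H n` its part of degree `n` and `G` its Frobenius
endomorphism, which need not be semisimple. By the formula of Künneth the cohomology of `A × U` is the
tensor product (`frobP`, `degP`).

**The condition** on `U`: all eigenvalues `β` of Frobenius on `H^*(U)` are unrelated to `A`
(`Unrelated P β`): for each root `α` of `P` there is an automorphism `τ` of `ℂ` with
`τ α = conj α` that fixes some positive power of `β`. The automorphism may depend on `α`. For
instance this is true if a power of `β` lies in a totally real field, or in a number field which is
linearly disjoint from the normal closures of the fields `ℚ(α)`. It is a condition on one root of `P`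
at a time, so that it does not exclude relations between several of the fields `ℚ(α)` and `ℚ(β)`.

**The conjecture** (`TateSS`) for a variety `X`: over all finite extensions of `k` and for all `i` the
eigenvalue one of Frobenius on `H^(2 i)(X, ℚ_ℓ(i))` is semisimple (Q2), and the invariant elements
are combinations of classes of cycles of codimension `i` (the surjectivity in Q1). In terms of the
untwisted cohomology: for all `N > 0` all generalized eigenvectors of the `N`-th power of Frobenius in
`H^(2 i)(X)` for `q ^ (i N)` are eigenvectors, and are in the span `C i` of the classes of cycles on
`X` over the algebraic closure.

**The theorem.** The conjecture for `A × U` is equivalent to the conjecture for `A`, for `U`, and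
`OddProducts`: for all odd `j` and all classes `x ≠ 0` of degree `j` on `A` and `w` of degree
`2 i - j` on `U` for which a power of Frobenius acts on `x` by the power of `√q ^ j`, and on `w`, up to
a nilpotent endomorphism, by the power of `√q ^ (2 i - j)`, the product `x × w` is algebraic, and `w` is
an eigenvector. The last condition is void if there are no such classes on `A`, or none on `U`
(`HalfFree`), in particular if no factor of `A` is supersingular and no product of three or
more odd number of eigenvalues of `A` is a half-integral power of `q` up to a root of unity, or if `U`
has no cohomology of odd degree.

So if `A` is any abelian variety that satisfies the conjecture of Tate, for instance one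
with exotic Tate classes, then for all such unrelated `U` the conjecture for `A × U` is equivalent to
the one for `U`. In the starting files and in the other hand-ins there are theorems of this kind for
abelian varieties `A` in the isogeny classes of almost all Weil polynomials, or of certain slope types,
which have no exotic Tate classes, and no two of whose eigenvalues are related; here nothing
is assumed about `A`. If `U` is an abelian variety as well then the theorem says that the conjecture of
Tate for products of unrelated abelian varieties follows from the conjecture for the factors.

The hypotheses on the classes of cycles (`IsCycles`) are that products of cycles are cycles, and that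
cycles on `A × U` can be restricted to `{0} × U` and to `A × {x}`, where `x` is a point of `U`
(over a finite extension); `e` is the class of `U` in `H^0(U)`, and `ε` is the restriction to `x`.

The proof. Let `θ` be the product of a family of `j` roots of `P`, and suppose that the product of a
power of `θ` and of a power of `β` is a power of `q`. The automorphisms that fix a power of `β` form a
group `𝔊`; it acts on the roots of `P` through a finite group, and a power `θ ^ m` is fixed by the
elements of a finite set of representatives. The product of the images of a root `α` under
these representatives does not change if `α` is replaced by `conj α = q / α`, by the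
condition; so its square is a power of `q`. Thus the norm of `θ ^ m`, which is a power of `θ`, is up to
sign the corresponding power of `√q ^ j`. So all (generalized) Tate classes on `A × U` are
combinations of products of Tate classes on `A` and generalized Tate classes on `U`, for even `j`.
-/

set_option autoImplicit false

namespace Pool.Agent.Results.MP_81632f_ag.AnyAbelianTimesUnrelated

open Polynomial Module TensorProduct Pool.Agent.K6.H79.MU

/-- **The conjecture of Tate and the semisimplicity for `A × U` are equivalent to those for `A` and
`U`, for all abelian varieties `A` and all unrelated varieties `U` over a finite field.** -/
theorem result {V : Type} [AddCommGroup V] [Module ℂ V] {W : Type} [AddCommGroup W] [Module ℂ W]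
    (q : ℕ) (hq : IsPrimePow q) (P : ℚ[X]) (hP : P ≠ 0)
    (hw : ∀ α : ℂ, aeval α P = 0 → α * (starRingEnd ℂ) α = q) (F : V →ₗ[ℂ] V)
    (hF : IsFrobOf P F) (H : ℕ → Submodule ℂ W) (G : W →ₗ[ℂ] W) (e : W) (ε : W →ₗ[ℂ] ℂ)
    (hU : IsVariety H G e ε)
    (hun : ∀ n, ∀ w ∈ H n, w ≠ 0 → ∀ β : ℂ, G w = β • w → Unrelated P β)
    (CA : ℕ → Submodule ℂ (ExteriorAlgebra ℂ V)) (CU : ℕ → Submodule ℂ W)
    (C : ℕ → Submodule ℂ ((ExteriorAlgebra ℂ V) ⊗[ℂ] W)) (hC : IsCycles ε CA CU C) :
    (TateSS (frobP F G) q (degP V H) C ↔
      TateSS (frobA F) q (deg V) CA ∧ TateSS G q H CU ∧ OddProducts F G q H C) ∧
    (HalfFree (frobA F) q (deg V) ∨ HalfFree G q H → OddProducts F G q H C) := by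
  refine ⟨⟨fun h => ?_, fun h => ?_⟩, oddProducts_of_halfFree hU⟩
  · obtain ⟨h1, h2⟩ := tateSS_factors hU hC h
    exact ⟨h1, h2, oddProducts hq.pos h⟩
  · exact tateSS_of hP hq.pos hw hF hU hun hC h.1 h.2.1 h.2.2

end Pool.Agent.Results.MP_81632f_ag.AnyAbelianTimesUnrelated
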