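import Pool.Agent.K6.H18.Cubic.Reduced

/-!
# The conjectures of Beilinson, Tate and Jannsen over finite fields: reduction to explicit smooth
cubic hypersurfaces with coefficients `0`, `1`, `-1`

Let `k` be a finite field.

The hypersurfaces. For polynomials `e_1, …, e_r`, `r > 0`, in `k[x_1, …, x_m]`, each of one of the
forms `x_a - x_b x_c`, `x_a - (x_b + x_c)`, `x_a - 1` (`IsElementary ∅ e`), let `V(e)`
(`Hypersurface e`) be the hypersurface
`∑ u_j e_j(x) = w (1 - w)`
in the affine space with coordinates `x_i`, `u_j`, `w`. It is smooth of dimension `m + r`, integral,
rational and of degree at most three (`IsRationalHypersurface e`). Its coefficients are `0`, `1`,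
`-1`. In `IsElementary S' e` also the equations `x_a - s`, `s` in `S'`, are allowed; here `S'` is
any set which generates the field `k`, for instance one element, or the empty set if `k = 𝔽_p`.

The theories. `BM k`: Borel-Moore homology theories on the affine schemes of finite type over `k`,
with push-forward along closed immersions, pull-back along smooth morphisms, localization sequences,
homotopy invariance, and the usual compatibilities. `M` and `T` are such theories, `c : M → T` is a
morphism and `F` is an endomorphism of `T`. The case in point:
* `M.H B a b` is Bloch's higher Chow group `CH_b(Spec B, a)`, tensored with `ℚ_ℓ`;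
* `T.H B a b` is the `ℓ`-adic Borel-Moore homology of `Spec B` over the algebraic closure of `k` in
  degree `a + 2b` with coefficients `ℚ_ℓ(b)`; for `B` smooth of pure dimension `d` this is the
  `ℓ`-adic cohomology in degree `2(d-b) - a` with coefficients `ℚ_ℓ(d-b)`;
* `c` is the cycle class map and `F` is the Frobenius.
The required properties are known (Bloch; SGA 4 and 5, Laumon, Jannsen). `Bijective c F B b` says
that the cycle class map is bijective from the cycles of dimension `b` (modulo rational equivalence,
`a = 0`) to the classes fixed by `F` (cycle classes are fixed by `F`). `Semisimple F B b` says that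
the eigenvalue `1` of `F` is semisimple in degree `2b`. Both are obvious for `B = k` (hypotheses in
the last part).

For a variety `X` over `k` the statements `TX X b` and `SX X b` are the same for `X`. If `X` is
smooth of pure dimension `d` they are the statements Q1 and Q2 of the problem for `X` and
`i = d - b`. `𝒱` is the class of varieties with an ample family of line bundles. It contains all
smooth varieties and all quasi-projective ones, in particular the affine ones, and every variety in
`𝒱` has a torsor under a vector bundle which is affine (Jouanolou, Thomason), which gives
`IsExtensionOfTwo`.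

Theorem. Over every finite field `k` there is one sequence `V_1, V_2, …` of hypersurfaces `V(e)` with
coefficients `0`, `1`, `-1` (`v N` is the system `e` of `V_N`; it does not depend on `ℓ`), such that
for Q1 and, separately, for Q2 the following are equivalent (`IsReduced`):
* the conjecture for all smooth varieties over `k` (in `𝒱`, which contains all of them);
* the conjecture in Borel-Moore homology for all varieties in `𝒱`, possibly singular;
* the conjecture for the smooth rational affine cubic hypersurfaces `V(e)`, an explicit list of
  equations with coefficients `0`, `1`, `-1` which does not depend on `k`;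
* the conjecture for infinitely many `V_N`.
Moreover, for every `X` in `𝒱` and all but finitely many `N` there is a number `n` such that, for all
`b`, the instance of `V_N` and `b + n` implies the instance of `X` and `b`. And for every variety `X`
in `𝒱`, singular or not, there are a hypersurface `V(e)`, with constants in `S'`, and a number `n`
such that, for all `b`, the instance of Q1 for `X` and `b` is equivalent to the instance of Q1 for
`V(e)` and `b + n`, and the instance of Q2 for `X` and `b` is equivalent to the instance of Q2 for
`V(e)` and `b + n` (`HasHypersurface`). So the same is true for the conjunction `B^i`.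

There is no alteration and no resolution of singularities in the proof.

Steps of the proof. (1) For every ring `B` and `e_1, …, e_r` in `B`, the scheme
`Spec B[u_1, …, u_r, w] / (∑ u_j e_j - w (1 - w))` is smooth over `Spec B` of relative dimension `r`.
If some `e_j` is invertible, it is an affine space over `Spec B`; if all `e_j` vanish, it is the
disjoint union of two affine spaces. (2) By induction on the number of nonzero `e_j`, with a diagram
chase in the localization sequences, its Borel-Moore homology is the direct sum of that of `Spec B`,
by pull-back, and that of `Spec B/(e_1, …, e_r)`, by pull-back to affine space and push-forward.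
(3) Every algebra of finite type over `k` is `k[x_1, …, x_m]/(e_1, …, e_r)` with `e_j` as above, with
constants in `S'`. (4) If every relation `x_a - s` is replaced by the minimal polynomial of `s` over
the prime field, the algebra becomes a direct factor of the new one, which has a presentation
without constants; the homology of a disjoint union is the direct sum. (5) `V_N` belongs to the
disjoint union of the first `N` hypersurfaces of an enumeration of all `V(e)`. All inclusions and
projections commute with the cycle map and with Frobenius.
-/

set_option autoImplicit false

open AlgebraicGeometry CategoryTheory MvPolynomial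

namespace Pool.Agent.Results.MP_81632f_ag.CubicHypersurfaces

open Pool.Agent.K6.H18.Cubic Pool.Agent.K6.H18.Cubic.Alg

/-- Q1 for `Spec B` and cycles of dimension `b`: the homomorphism `c` is injective and every class
fixed by Frobenius is the class of a cycle (with coefficients). -/
def Bijective {k : Type} [CommRing k] {M T : BM k} (c : M.Hom T) (F : T.Hom T) (B : Alg k)
    (b : ℤ) : Prop :=
  Function.Injective (c.mapf (B := B) (a := 0) (b := b)) ∧
    ∀ y : T.H B 0 b, F.mapf y = y → ∃ x : M.H B 0 b, c.mapf x = y

/-- Q2 for `Spec B` in degree `2b`: the kernel of `(F - 1)²` is the kernel of `F - 1`. -/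
def Semisimple {k : Type} [CommRing k] {T : BM k} (F : T.Hom T) (B : Alg k) (b : ℤ) : Prop :=
  ∀ y : T.H B 0 b, F.mapf (F.mapf y - y) = F.mapf y - y → F.mapf y = y

/-- The instances of both conjectures for `X` are equivalent to instances for one hypersurface with
constants in `S'`. -/
def HasHypersurface {k : Type} [CommRing k] (S' : Set k)
    (TX SX : Over (Spec (CommRingCat.of k)) → ℤ → Prop) (X : Over (Spec (CommRingCat.of k))) :
    Prop :=
  ∃ (m r n : ℕ) (e : Fin r → MvPolynomial (Fin m) k), IsElementary S' e ∧
    ∀ b, (TX X b ↔ TX (specOf (Hypersurface e)) (b + n)) ∧
      (SX X b ↔ SX (specOf (Hypersurface e)) (b + n))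

/-- The conjectures on cycles over finite fields are equivalent to their cases of infinitely many
members of one sequence of explicit smooth rational cubic hypersurfaces with coefficients `0`, `1`,
`-1`. -/
theorem result {k : Type} [Field k] [Finite k] (S' : Set k) (hS' : Subfield.closure S' = ⊤) :
    (∀ (m r : ℕ) (e : Fin r → MvPolynomial (Fin m) k), IsElementary Set.univ e →
      IsRationalHypersurface e) ∧
    ∃ v : ℕ → EqnSystem k, (∀ N, IsElementary ∅ (v N).eqs) ∧
      ∀ (M T : BM k) (c : M.Hom T) (F : T.Hom T) (𝒱 : Over (Spec (CommRingCat.of k)) → Prop)
        (TX SX : Over (Spec (CommRingCat.of k)) → ℤ → Prop),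
        IsExtensionOfTwo (Bijective c F) (Semisimple F) 𝒱 TX SX →
        IsReduced ∅ v 𝒱 TX ∧ IsReduced ∅ v 𝒱 SX ∧
          ((∀ b, Bijective c F (base k) b) → (∀ b, Semisimple F (base k) b) →
            ∀ X, 𝒱 X → HasHypersurface S' TX SX X) := by
  have hsep := isSeparable_of_finite k ∅
  obtain ⟨v, hv, h⟩ := exists_isReduced (k := k) (S := ∅) Set.countable_empty
  refine ⟨fun _ _ e he => isRationalHypersurface e he, v, hv, fun M T c F 𝒱 TX SX hTX => ?_⟩
  have hB : Inherited (Bijective c F) := by
    intro B C n hs b hb
    exact ⟨inherited_injective c B C n hs b hb.1, fun y hy =>
      inherited_surjective c (fun _ : Unit => F) B C n hs b (fun z hz => hb.2 z (hz ())) y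
        (fun _ => hy)⟩
  refine ⟨h _ hB 𝒱 TX hTX.fst, h _ (inherited_semisimple F) 𝒱 SX hTX.snd, fun hk₁ hk₂ X hX => ?_⟩
  have hP : SplitsP (fun (B : Type) [CommRing B] [Algebra k B] b => Bijective c F ⟨B⟩ b) :=
    isAdditive_fixed.splitsP_bundled c (fun _ => F) 0
  have hQ : SplitsP (fun (B : Type) [CommRing B] [Algebra k B] b => Semisimple F ⟨B⟩ b) :=
    isAdditive_eigenvalue.splitsP_bundled c (fun _ => F) 0
  obtain ⟨m, r, n, e, he, -, hb⟩ := exists_iff_two hP hQ hk₁ hk₂ hTX hS' X hX
  exact ⟨m, r, n, e, he, hb⟩

end Pool.Agent.Results.MP_81632f_ag.CubicHypersurfaces
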