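import Mathlib
import Pool.Agent.K6.H99.EH.Final

/-!
# The conjectures of Beilinson and Tate for products of elliptic curves with an arbitrary curve

Let `q` be a prime power, `n` a multiple of `24` and `k` the field with `Q = q ^ n` elements. Let `𝒫` be
the class of the products `A × Y`, where `A` is any abelian variety isogenous to a product of
elliptic curves which come from the field with `q` elements (for instance: `A` is an arbitrary product
of elliptic curves over the field with `q` elements), and `Y` is **any smooth projective curve**; here `A`
and `Y` are defined over any finite extension of `k`, and `A × Y` is regarded as a scheme over `k`.
Let `𝒢` (`Generated`) be the smallest class of schemes of finite type over `k` which contains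
`𝒫`, the schemes whose motives are direct summands of finite sums of twists of motives of members,
and which contains all of a closed subscheme `Z` of `X`, `X` and `X ∖ Z` if it contains two of them;
for instance all `B × U`, where `B` is a product of (open subsets of) curves whose Jacobians are isogenous
to products of elliptic curves as above, and `U` is **any open subset of any curve**, and the varieties
with a stratification by such products. Let `𝒮` (`Spread`) be the smallest class which
contains `𝒢`, all open subschemes (with arbitrary complement) and all images under proper morphisms
of its members, and the schemes that are the union of a closed and an open member, or whose motives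
are direct summands of sums of twists of motives of members. It contains all varieties dominated by
varieties `A × Y` in `𝒫`, and all their open subschemes.

**Theorem.**

* (Q2, and surjectivity in Q1) For all schemes `X` in `𝒮` and all `i` the eigenvalue one of the
  Frobenius on `H_(2 i)(X, ℚ_ℓ(i))` is semisimple, and the invariant elements are linear combinations of
  classes of cycles of dimension `i` (`IsOnto`).
* (Q1) For all schemes `X` in `𝒢` and all `i` the cycle class map is an isomorphism of `CH_i(X)`, with
  coefficients extended, with the space of the invariant elements (`IsIso`). Moreover Jannsen's
  conjecture for all degrees and twists holds (`TB`): in particular the rational motivic homology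
  `H_a(X, ℚ(b))`, `a ≠ 2 b`, of the smooth projective members vanishes (Parshin's conjecture).
* (Q1) For the complement `U = X ∖ Z` of an arbitrary closed subscheme `Z` of dimension at most `d` of
  a scheme in `𝒢` the cycle class map is an isomorphism for all `i ≥ d`.

For smooth `X` of dimension `e` the group `H_(2 i)(X, ℚ_ℓ(i))` is `H^(2 (e - i))(X, ℚ_ℓ(e - i))`, so that
this is `B^(e-i)(X)`. For `X = A × Y` this contains the rank part of the conjecture of Beilinson and Bloch
(and of Birch, Swinnerton-Dyer, Tate) for the cycles of all codimensions on the constant abelian
variety `A` over the function field of `Y`.

What was known: the Tate conjecture for products of elliptic curves (Spiess), and the case without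
the curve `Y` (Kahn). The Tate classes on `A × Y` involve the eigenvalues of Frobenius of an arbitrary
curve. The proof: let `z_1, …, z_m` be Frobenius eigenvalues of elliptic curves over the field with `q`
elements, and `ρ` an eigenvalue of `Y`, such that `(z_1 ⋯ z_m) ^ n ρ` is a power of `Q`. Suppose that no
product `(z_k z_l) ^ n`, `k ≠ l`, is equal to `Q`. For a place over `p` let `d_k(σ)` be the
normalized difference of the valuations of `σ(z_k)` and of its conjugate, as a function on the Galois
group; its values are `± 1` if `z_k` is ordinary, and `0` if it is supersingular. For two ordinary
eigenvalues the mean value of `d_k d_l` is zero if the imaginary quadratic fields of `z_k` and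
`z_l` are different, and one if they are equal, as then `z_k ^ 24 = z_l ^ 24` by our assumption. So
the mean value of the square of the sum of the `d_k` is at least the number of the ordinary `z_k`;
but the sum is up to the sign the difference of the valuations of `σ(ρ)` and its conjugate, which has
absolute value at most one. So there is at most one ordinary and one supersingular eigenvalue, and
`m` is odd, hence `m = 1`. Therefore the Tate classes of all powers of Frobenius on `A × Y` are
combinations of products of classes of divisors (Tate's theorem for divisors), and the argument of
Soule, Geisser and Kahn gives the rest for `A × Y`; the passage to the classes `Generated` and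
`Spread` was formalized in the starting files (`W495/FM`).

The framework: `Homology` is the motivic and `ℓ`-adic homology of schemes of finite type over `k`
(helper495), `Theory` is a class of smooth projective varieties over a finite field with Chow groups
and a Weil cohomology theory (helper492, helper484), and `Represents` says that the homology groups
of a scheme are those of a smooth projective variety over an extension of `k`, regarded as a scheme
over `k`.
-/

set_option autoImplicit false

namespace Pool.Agent.Results.MP_81632f_ag.EllipticTimesCurve

open Polynomial Pool.Agent.W495.FM Pool.Agent.K6.H99.EC Pool.Agent.K6.H99.EH

/-- `IsProduct E q n (ellipticPoly q) X`: the homology groups of `X` are those of a product `A × Y`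
over an extension of the field `k` with `q ^ n` elements, regarded as a scheme over `k`, where `A` is
an abelian variety isogenous to a product of elliptic curves coming from the field with `q`
elements, and `Y` is a curve; `ellipticPoly q` is the family of the polynomials `X ^ 2 - t X + q` of
elliptic curves over the field with `q` elements. -/
theorem result (q : ℕ) (hq : IsPrimePow q) (n : ℕ) (hn : 24 ∣ n) (Ω : Type) [Field Ω]
    [IsAlgClosed Ω] [CharZero Ω] (V : Type) (E : Homology Ω V) (hE : IsHomology E)
    (hW : HasWeights E) :
    (∀ X : V, Spread E (Generated E (IsProduct E q n (ellipticPoly q))) X →
      ∀ i : ℤ, IsOnto E X i) ∧
    ∀ X : V, Generated E (IsProduct E q n (ellipticPoly q)) X →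
      TB E X ∧ (∀ i : ℤ, IsIso E X i) ∧
        ∀ (Z U : V) (d : ℤ), IsTriple E Z X U → HasDimLE E Z d → ∀ i : ℤ, d ≤ i → IsIso E U i :=
  class_of_tb hE hW fun _ h => tb_elliptic hq hn hE h

end Pool.Agent.Results.MP_81632f_ag.EllipticTimesCurve
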