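import Pool.Agent.K6.H28.NW.Strong

/-!
# Tate, Beilinson and semisimplicity over finite fields: one field of rational functions

Let `F` be a finite field, `ℓ` a prime invertible in `F` and `k` an integer. For a quasi-projective scheme `A`
over `F` let `H_i(A) = CH_k(A, i - 2 k) ⊗ ℚ_ℓ`, let `W_i(A)` be the generalised eigenspace for the eigenvalue one
of the Frobenius on the `ℓ`-adic homology `H_i(A_F̄, ℚ_ℓ(k))`, and let `c_i : H_i(A) → W_i(A)` be the cycle class
map (the regulator). If `A` is smooth of pure dimension `d` then `W_(2 k)(A)` is the generalised eigenspace in
`H^(2 j)(A_F̄, ℚ_ℓ(j))`, where `j = d - k`, and `c_(2 k)` is the cycle class map on `CH^j(A) ⊗ ℚ_ℓ`; so `c_(2 k)` is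
bijective if and only if Q1 and Q2 hold for `A` and `j`. For the field `K` of rational functions of a variety
of dimension `e` let `c_i(K) : H_i(K) → W_i(K)` be the direct limit over the non-empty open subschemes; here
`H_i(K) = CH^(e - k)(K, i - 2 k) ⊗ ℚ_ℓ`.

**Theorem** (`StrongForm`). For each `N` the following are equivalent:

* (`TBTo`) for all smooth projective `Y` of dimension at most `N`: the conjectures of Tate and Beilinson and
  semisimplicity for cycles of dimension `k` (that is, Q1 and Q2), and `CH_k(Y, j) ⊗ ℚ_ℓ = 0` for `j > 0` (the
  conjecture of Parshin);
* (`TBAllTo`) for all quasi-projective `A` of dimension at most `N`, open and singular ones included, and for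
  all `i`: the eigenvalue one is semisimple and `c_i` is bijective;
* the maps `c_i(K)` are bijective for all `i` for the **single** field `K = F(x_1, ..., x_(N + 1))`.

If the maps `c_i(K)` are bijective for all `i` for **one** field `K` of transcendence degree `e` over `F` then
the first statement holds for all smooth projective `Y` of dimension at most `e - 1`. The first statement
holds for all `N` if and only if for each `N` there is one field `K` of transcendence degree `e ≥ N` for which
the `c_i(K)` are bijective.

The proof. The groups relative to `c` (which fit in a long exact sequence with `H` and `W`) are zero for the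
projective space `X` of dimension `d + 1`. So a relative class on a closed subset `Z` of `X` of dimension `d`
is a residue of a relative class on `X ∖ Z`; if the latter becomes zero on a smaller open subscheme then
the former becomes zero on a larger closed subset of dimension `d`. If the relative groups of the schemes
of dimension less than `d` are zero then the classes at the generic points of `Z` extend to `Z`, and one
concludes that they are zero. All varieties of dimension `d` are birational to hypersurfaces in `X`. The
residue maps give the step from `F(x_1, ..., x_(e + 1))` to `F(x_1, ..., x_e)`.
-/

set_option autoImplicit false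

namespace Pool.Agent.Results.MP_81632f_ag.OneFunctionField

open Pool.Agent.K6.H28.NW

/-- **Tate, Beilinson, semisimplicity and Parshin in dimensions at most `N`, in terms of one field of
rational functions in `N + 1` variables.** -/
theorem result (U : Family) (k : ℤ) (D : ∀ t, Triangle (U.S t)) (Φ : ∀ t, Frobenius (D t))
    (hU : IsWorld U) (hD : IsRegulator U k D Φ) : StrongForm U k D Φ :=
  All.strongForm hU hD

end Pool.Agent.Results.MP_81632f_ag.OneFunctionField
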